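import Pool.Agent.helper43.BMH.Spec

/-!
# Row bmh:ALR (MP_cef0b4_gt): all dimensions
-/

set_option autoImplicit false

namespace Pool.Agent.helper43.BMH

open scoped ENNReal
open Pool.Agent.helper75.BM (nrm N2 L dBM nrm_nonneg)

theorem ALR_gam_pos {p q : ℝ≥0∞} [Fact (1 ≤ p)] (hp2 : p < 2) : 0 < gam p q := by
  have hp1 : 1 ≤ p := Fact.out
  have hpt : p ≠ ⊤ := (hp2.trans ENNReal.ofNat_lt_top).ne
  have h1 : 1 ≤ p.toReal := by
    rw [← ENNReal.toReal_one]; exact ENNReal.toReal_mono hpt hp1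
  have h2 : p.toReal < 2 := by
    have := (ENNReal.toReal_lt_toReal hpt (by norm_num)).2 hp2
    simpa using this
  unfold gam
  refine lt_of_lt_of_le ?_ (le_max_left _ _)
  rw [ENNReal.toReal_div, ENNReal.toReal_one]
  have : 1 / 2 < 1 / p.toReal := by
    rw [div_lt_div_iff₀ (by norm_num) (by linarith)]; linarith
  linarith

theorem ALR_mono {p q : ℝ≥0∞} [Fact (1 ≤ p)] [Fact (1 ≤ q)] {d : ℕ} {l l' : ℝ}
    (h : LA p q d l) (hl : l ≤ l') : LA p q d l' := by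
  obtain ⟨h0, A, h1, h2⟩ := h
  refine ⟨h0.trans_le hl, A, h1, fun x => (h2 x).trans ?_⟩
  exact mul_le_mul_of_nonneg_right hl (nrm_nonneg _)

theorem t_alr (hq : QPB) (hl : HLA) (hb : BLK) (hk : HKR) : ALR := by
  intro p q _ _ hp2 hq2
  have hγ : 0 < gam p q := ALR_gam_pos hp2
  obtain ⟨γ, hγe⟩ : ∃ γ : ℝ, γ = gam p q := ⟨_, rfl⟩
  rw [← hγe] at hγ
  obtain ⟨t, ht⟩ : ∃ t : ℝ, t = (1 / 2 : ℝ) ^ γ := ⟨_, rfl⟩
  have ht0 : 0 < t := by rw [ht]; positivity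
  have ht1 : t < 1 := by
    rw [ht]
    exact Real.rpow_lt_one (by norm_num) (by norm_num) hγ
  obtain ⟨C, hC⟩ : ∃ C : ℝ, C = 1 / (1 - t) := ⟨_, rfl⟩
  have h1t : 0 < 1 - t := by linarith
  have hC0 : 0 < C := by rw [hC]; positivity
  have hC1 : 1 + C * t = C := by
    rw [hC]
    field_simp
    ring
  have hC2 : 1 ≤ C := by nlinarith
  have hpow : ∀ i : ℕ, LA p q (2 ^ i) (((2 ^ i : ℕ) : ℝ) ^ γ) := by
    intro i
    obtain ⟨K, hK⟩ := hk i 0
    have h1 := hl p q hp2 hq2 (2 ^ i * 12 ^ 0) K 1 (by positivity) one_pos hK (by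
      intro y
      rw [one_mul]
      exact hq p q hp2 hq2 (2 ^ i * 12 ^ 0) K (by positivity) hK y)
    rw [one_mul, show 2 ^ i * 12 ^ 0 = 2 ^ i by rw [pow_zero, mul_one], ← hγe] at h1
    exact h1
  refine ⟨C, hC0, ?_⟩
  rw [← hγe]
  intro r
  induction r using Nat.strong_induction_on with
  | _ r ih =>
    intro hr
    have hlog1 : 2 ^ Nat.log 2 r ≤ r := Nat.pow_log_le_self 2 (by omega)
    have hlog2 : r < 2 ^ (Nat.log 2 r + 1) := Nat.lt_pow_succ_log_self (by norm_num) r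
    obtain ⟨m, hm⟩ : ∃ m : ℕ, m = 2 ^ Nat.log 2 r := ⟨_, rfl⟩
    have hLA := hpow (Nat.log 2 r)
    rw [← hm] at hlog1 hLA
    rw [pow_succ, ← hm] at hlog2
    have hm0 : 0 < m := by rw [hm]; positivity
    have hr0 : (0 : ℝ) < r := by exact_mod_cast hr
    have hrγ : 0 < (r : ℝ) ^ γ := by positivity
    have hmr : (m : ℝ) ^ γ ≤ (r : ℝ) ^ γ :=
      Real.rpow_le_rpow (Nat.cast_nonneg _) (by exact_mod_cast hlog1) hγ.le
    by_cases h0 : r - m = 0
    · have hrm : r = m := by omega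
      rw [hrm] at hrγ ⊢
      refine ALR_mono hLA ?_
      nlinarith
    · have h1 := hb p q (hp2.trans hq2).le m (r - m) _ _ hLA (ih (r - m) (by omega) (by omega))
      have h2 : m + (r - m) = r := by omega
      rw [h2] at h1
      refine ALR_mono h1 ?_
      have h3 : ((r - m : ℕ) : ℝ) ≤ 1 / 2 * (r : ℝ) := by
        have h4 : 2 * (r - m) ≤ r := by omega
        have h5 : (2 : ℝ) * ((r - m : ℕ) : ℝ) ≤ (r : ℝ) := by exact_mod_cast h4
        linarith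
      have h4 : ((r - m : ℕ) : ℝ) ^ γ ≤ t * (r : ℝ) ^ γ := by
        rw [ht, ← Real.mul_rpow (by norm_num) hr0.le]
        exact Real.rpow_le_rpow (Nat.cast_nonneg _) h3 hγ.le
      calc (m : ℝ) ^ γ + C * ((r - m : ℕ) : ℝ) ^ γ ≤ (r : ℝ) ^ γ + C * (t * (r : ℝ) ^ γ) :=
            add_le_add hmr (mul_le_mul_of_nonneg_left h4 hC0.le)
        _ = (1 + C * t) * (r : ℝ) ^ γ := by ring
        _ = C * (r : ℝ) ^ γ := by rw [hC1]

end Pool.Agent.helper43.BMH
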